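import Pool.Agent.MP_c34dea_an.H23.Final
import Pool.Agent.MP_c34dea_an.H23.Cost
import Pool.Agent.MP_c34dea_an.H23.TowerI

set_option autoImplicit false
open MeasureTheory

namespace Pool.Agent.Results.MP_c34dea_an.Neither

open Pool.Agent.MP_c34dea_an.H23

theorem result :
    ∃ (X : Type) (_ : MeasurableSpace X) (_ : StandardBorelSpace X) (E : Setoid X)
      (μ : Measure X) (_ : IsProbabilityMeasure μ),
      MeasurableSet {q : X × X | E q.1 q.2} ∧
      (∀ x, {y | E x y}.Countable) ∧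
      (∀ f : X → X, Measurable f → Function.Bijective f → (∀ x, E x (f x)) → μ.map f = μ) ∧
      (∀ B : Set X, MeasurableSet B → (∀ x y, E x y → x ∈ B → y ∈ B) → μ B = 0 ∨ μ B = 1) ∧
      (¬ ∃ B : Set X, MeasurableSet B ∧ μ B = 1 ∧ ∃ F : ℕ → Setoid B,
        (∀ n, MeasurableSet {q : B × B | F n q.1 q.2}) ∧
        (∀ n x, {y | F n x y}.Finite) ∧
        (∀ n x y, F n x y → F (n + 1) x y) ∧
        (∀ x y : B, E x y ↔ ∃ n, F n x y)) ∧
      (¬ ∃ A : Set X, MeasurableSet A ∧ μ A = 1 ∧ ∃ a : FreeGroup (Fin 2) →* Equiv.Perm A,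
        (∀ g, Measurable (a g)) ∧
        (∀ g, g ≠ 1 → ∀ x, a g x ≠ x) ∧
        (∀ g (x : A), E x (a g x))) := by
  classical
  obtain ⟨H, hH, hfi, hN, hF⟩ := towerI (stepAll cost)
  have hG := hF.towerG
  obtain ⟨μ, hμ, ⟨S⟩⟩ := exists_sys H hH hfi
  let E : Setoid (LimX H) := ⟨fun x y => ∃ g : Γ5, y = g • x,
    ⟨fun x => ⟨1, (one_smul _ _).symm⟩,
     fun ⟨g, hg⟩ => ⟨g⁻¹, by rw [hg, inv_smul_smul]⟩,
     fun ⟨g, hg⟩ ⟨k, hk⟩ => ⟨k * g, by rw [hk, hg, mul_smul]⟩⟩⟩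
  refine ⟨LimX H, inferInstance, inferInstance, E, μ, hμ, ?_, ?_, ?_, ?_, ?_, ?_⟩
  · change MeasurableSet {q : LimX H × LimX H | ∃ g : Γ5, q.2 = g • q.1}
    rw [Set.ofPred_exists]
    exact MeasurableSet.iUnion fun g =>
      measurableSet_eq_fun measurable_snd ((S.mp g).measurable.comp measurable_fst)
  · intro x
    refine (Set.countable_range fun g : Γ5 => g • x).mono ?_
    rintro y ⟨g, hg⟩
    exact ⟨g, hg.symm⟩
  · exact fun f hf hb hE => S.map_eq hf hb hE
  · intro B hB hinv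
    refine S.ergodic hfi hB fun g => ?_
    ext x
    exact ⟨fun h => hinv _ x ⟨g⁻¹, (inv_smul_smul _ _).symm⟩ h, fun h => hinv x _ ⟨g, rfl⟩ h⟩
  · rintro ⟨B, hB, hB1, F, h1, h2, h3, h4⟩
    have hemb : MeasurableEmbedding (Prod.map (Subtype.val : B → LimX H) (Subtype.val : B → LimX H)) :=
      (MeasurableEmbedding.subtype_coe hB).prodMap (MeasurableEmbedding.subtype_coe hB)
    let F' : ℕ → Set (LimX H × LimX H) := fun n =>
      {q | q.1 = q.2} ∪ (Prod.map Subtype.val Subtype.val) '' {q : B × B | F n q.1 q.2}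
    have hF' : ∀ n x y, (x, y) ∈ F' n ↔
        x = y ∨ ∃ (hx : x ∈ B) (hy : y ∈ B), F n ⟨x, hx⟩ ⟨y, hy⟩ := by
      intro n x y
      constructor
      · rintro (h | ⟨⟨a, b⟩, h, e⟩)
        · exact Or.inl h
        · obtain ⟨rfl, rfl⟩ := Prod.mk.inj e
          exact Or.inr ⟨a.2, b.2, h⟩
      · rintro (h | ⟨hx, hy, h⟩)
        · exact Or.inl h
        · exact Or.inr ⟨(⟨x, hx⟩, ⟨y, hy⟩), h, rfl⟩
    refine S.not_hyperfinite hfi hN hB ((prob_compl_eq_zero_iff hB).2 hB1) (F := F')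
      ?_ ?_ ?_ ?_ ?_ ?_ ?_
    · intro n
      exact (measurableSet_eq_fun measurable_fst measurable_snd).union
        (hemb.measurableSet_image.2 (h1 n))
    · exact fun n x => (hF' n x x).2 (Or.inl rfl)
    · intro n x y h
      rcases (hF' n x y).1 h with h | ⟨hx, hy, h⟩
      · exact (hF' n y x).2 (Or.inl h.symm)
      · exact (hF' n y x).2 (Or.inr ⟨hy, hx, (F n).symm h⟩)
    · intro n x y z h k
      rcases (hF' n x y).1 h with h' | ⟨hx, hy, h'⟩
      · rw [h']; exact k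
      · rcases (hF' n y z).1 k with k' | ⟨hy', hz, k'⟩
        · rw [← k']; exact h
        · exact (hF' n x z).2 (Or.inr ⟨hx, hz, (F n).trans h' k'⟩)
    · intro n x
      by_cases hx : x ∈ B
      · refine ((Set.finite_singleton x).union ((h2 n ⟨x, hx⟩).image Subtype.val)).subset ?_
        intro y hy
        rcases (hF' n x y).1 hy with h | ⟨_, hy', h⟩
        · exact Or.inl h.symm
        · exact Or.inr ⟨⟨y, hy'⟩, h, rfl⟩
      · refine (Set.finite_singleton x).subset ?_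
        intro y hy
        rcases (hF' n x y).1 hy with h | ⟨hx', _, _⟩
        · exact h.symm
        · exact absurd hx' hx
    · rintro n ⟨x, y⟩ h
      rcases (hF' n x y).1 h with h | ⟨hx, hy, h⟩
      · exact (hF' _ x y).2 (Or.inl h)
      · exact (hF' _ x y).2 (Or.inr ⟨hx, hy, h3 n _ _ h⟩)
    · intro x hx y hy
      constructor
      · intro h
        obtain ⟨n, hn⟩ := (h4 ⟨x, hx⟩ ⟨y, hy⟩).1 h
        exact ⟨n, (hF' n x y).2 (Or.inr ⟨hx, hy, hn⟩)⟩
      · rintro ⟨n, hn⟩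
        rcases (hF' n x y).1 hn with h | ⟨hx', hy', h⟩
        · exact ⟨1, by simp [h]⟩
        · exact (h4 ⟨x, hx'⟩ ⟨y, hy'⟩).2 ⟨n, h⟩
  · rintro ⟨A, hA, hA1, a, h1, h2, h3⟩
    obtain ⟨r, hr⟩ := S.no_label hH hfi hG
    obtain ⟨f, hf⟩ := exists_injective_fin r
    let b : FreeGroup (Fin r) → LimX H → LimX H := fun g x =>
      if hx : x ∈ A then (a (f g) ⟨x, hx⟩ : LimX H) else x
    have hb : ∀ g x (hx : x ∈ A), b g x = (a (f g) ⟨x, hx⟩ : LimX H) := fun g x hx => dif_pos hx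
    obtain ⟨W, hW, hW0, hac⟩ := S.exists_label (r := r) hA (b := b)
      (fun g => Measurable.dite (f := fun x : A => (a (f g) x : LimX H))
        (g := fun x : (Aᶜ : Set (LimX H)) => (x : LimX H))
        (measurable_subtype_coe.comp (h1 _)) measurable_subtype_coe hA)
      (fun g x hx => by rw [hb g x hx]; exact (a (f g) ⟨x, hx⟩).2)
      (fun x hx => by rw [hb 1 x hx, map_one, map_one]; rfl)
      (fun g h x hx => by
        rw [hb _ x hx, hb h x hx, hb g _ (a (f h) ⟨x, hx⟩).2, map_mul, map_mul]; rfl)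
      (fun g hg x hx => by
        rw [hb g x hx]
        exact fun e => h2 (f g) (fun e' => hg (hf (by rw [e', map_one]))) ⟨x, hx⟩ (Subtype.ext e))
      (fun g x hx => by rw [hb g x hx]; exact h3 (f g) ⟨x, hx⟩)
    refine hr W hW (fun l => measure_mono_null (t := Aᶜ) (fun x hx hxA => hW0 l x hxA hx) ?_) hac
    exact (prob_compl_eq_zero_iff hA).2 hA1

end Pool.Agent.Results.MP_c34dea_an.Neither
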